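import Pool.Agent.Lib.MP_a60258_s6.Iface

/-!
# Module PVZ: incomplete graphs have graph sum zero
-/

open MvPolynomial Finset

namespace A602.S6.H16

section
variable {V : Type} [Fintype V] [DecidableEq V] {S : Finset ℕ}

lemma pval_zero : ∀ (l : List (V × V)) {Q : V → R} (u : V), Q u = 0 → pval S l Q = 0
  | [], Q, u, h => by
      simp only [pval]
      exact Finset.prod_eq_zero (Finset.mem_univ u) (by rw [h, map_zero])
  | e :: l, Q, u, h => by
      simp only [pval]
      refine Finset.sum_eq_zero fun j _ => pval_zero l u ?_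
      unfold dE
      rw [h, map_zero, ite_self]

lemma E_cha_zero {p : ℕ} {P : R} (hP : Cha S p P) (hp : p ≠ 0) : E P = 0 := by
  have h := hP.ibp 1
  rw [mul_one] at h
  have h2 : ∑ i ∈ S, E (pderiv i P * pderiv i (1 : R)) = 0 :=
    Finset.sum_eq_zero fun i _ => by rw [pderiv_one, mul_zero, map_zero]
  rw [h2] at h
  rcases mul_eq_zero.1 h with h3 | h3
  · exact absurd (Nat.cast_eq_zero.1 h3) hp
  · exact h3

lemma pval_incomplete (v : V) : ∀ (l : List (V × V)) {d : V → ℕ} {Q : V → R}
    (_ : ∀ u, Cha S (d u) (Q u)),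
    l.countP (fun e => decide (v = e.1 ∨ v = e.2)) ≠ d v → pval S l Q = 0
  | [], d, Q, hQ, h => by
      simp only [pval]
      refine Finset.prod_eq_zero (Finset.mem_univ v) (E_cha_zero (hQ v) ?_)
      intro h0
      exact h (by rw [h0]; rfl)
  | e :: l, d, Q, hQ, h => by
      simp only [pval]
      refine Finset.sum_eq_zero fun j _ => ?_
      by_cases hv : v = e.1 ∨ v = e.2
      · rw [List.countP_cons_of_pos (by simpa using hv)] at h
        by_cases hd : d v = 0
        · refine pval_zero l v ?_
          have h2 := hQ v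
          rw [hd] at h2
          obtain ⟨c, hc⟩ := h2
          simp only [dE, if_pos hv, hc, pderiv_C]
        · refine pval_incomplete v l (cha_dE hQ e j) ?_
          rw [if_pos hv]
          omega
      · rw [List.countP_cons_of_neg (by simpa using hv)] at h
        refine pval_incomplete v l (cha_dE hQ e j) ?_
        rw [if_neg hv]
        exact h
end

lemma countP_ms (x : Pr → ℕ) (v : Fin 6) :
    (ms ends x).toList.countP (fun e => decide (v = e.1 ∨ v = e.2)) = deg x v := by
  have h1 : (ms ends x).toList.countP (fun e => decide (v = e.1 ∨ v = e.2))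
      = Multiset.countP (fun e : Fin 6 × Fin 6 => v = e.1 ∨ v = e.2) (ms ends x) := by
    conv_rhs => rw [← Multiset.coe_toList (ms ends x)]
    rw [Multiset.coe_countP]
  rw [h1]
  unfold ms deg
  rw [← Multiset.coe_countPAddMonoidHom, map_sum]
  refine Finset.sum_congr rfl fun a _ => ?_
  rw [map_nsmul, Multiset.coe_countPAddMonoidHom, ← Multiset.cons_zero, smul_eq_mul]
  by_cases h : v = (ends a).1 ∨ v = (ends a).2
  · rw [Multiset.countP_cons_of_pos (p := fun e : Fin 6 × Fin 6 => v = e.1 ∨ v = e.2) _ h,
      Multiset.countP_zero, if_pos h, zero_add, mul_one]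
  · rw [Multiset.countP_cons_of_neg (p := fun e : Fin 6 × Fin 6 => v = e.1 ∨ v = e.2) _ h,
      Multiset.countP_zero, if_neg h, mul_zero]

theorem pvz (_h1 : PvpStatement) : PvzStatement := by
  intro S p P x hP hx
  unfold Cmp at hx
  push Not at hx
  obtain ⟨v, hv⟩ := hx
  unfold Vx
  refine pval_incomplete v _ (d := fun _ => p) (fun _ => hP) ?_
  rw [countP_ms]
  exact hv

end A602.S6.H16
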